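import Pool.Agent.H68.LP.Stm

set_option autoImplicit false

namespace Pool.Agent.H39.LP

open Quaternion Pool.Agent.H68.LP

attribute [local instance 100] LieRing.ofAssociativeRing

section
variable {K L : Type} [Field K] [LieRing L] [LieAlgebra K L]

/-- words do not depend on letters which do not occur -/
theorem word_const {s : Multiset ℕ} {w : FreeLieAlgebra K ℕ} (hw : IsWord K s w) (v : ℕ)
    (hv : v ∉ s) (a : ℕ → L) (y : L) : ev (Function.update a v y) w = ev a w := by
  induction hw with
  | letter i =>
    rw [ev_of, ev_of, Function.update_of_ne]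
    rintro rfl
    exact hv (by simp)
  | bracket h1 h2 ih1 ih2 =>
    rw [Multiset.mem_add, not_or] at hv
    rw [ev_lie, ev_lie, ih1 hv.1, ih2 hv.2]

/-- words are linear in letters which occur once -/
theorem word_lin {s : Multiset ℕ} {w : FreeLieAlgebra K ℕ} (hw : IsWord K s w) (v : ℕ)
    (hv : s.count v = 1) (a : ℕ → L) :
    ∃ f : L →ₗ[K] L, ∀ y, ev (Function.update a v y) w = f y := by
  induction hw with
  | letter i =>
    have hvi : v = i := by
      by_contra h
      rw [Multiset.count_singleton, if_neg h] at hv
      omega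
    subst hvi
    exact ⟨LinearMap.id, fun y => by simp⟩
  | @bracket s t v' w' h1 h2 ih1 ih2 =>
    rw [Multiset.count_add] at hv
    by_cases h0 : s.count v = 0
    · have h3 : t.count v = 1 := by omega
      obtain ⟨f, hf⟩ := ih2 h3
      refine ⟨(LieAlgebra.ad K L (ev a v')).comp f, fun y => ?_⟩
      rw [ev_lie, hf, word_const h1 v (Multiset.count_eq_zero.1 h0)]
      rfl
    · have h3 : s.count v = 1 := by omega
      have h4 : t.count v = 0 := by omega
      obtain ⟨f, hf⟩ := ih1 h3
      refine ⟨-(LieAlgebra.ad K L (ev a w')).comp f, fun y => ?_⟩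
      rw [ev_lie, hf, word_const h2 v (Multiset.count_eq_zero.1 h4)]
      simp

theorem multi_const {V : Finset ℕ} {p : FreeLieAlgebra K ℕ}
    (hp : p ∈ Submodule.span K {w | IsWord K V.val w}) (v : ℕ) (hv : v ∉ V) (a : ℕ → L) (y : L) :
    ev (Function.update a v y) p = ev a p := by
  induction hp using Submodule.span_induction with
  | mem w hw => exact word_const hw v hv a y
  | zero => simp
  | add x z _ _ hx hz => rw [ev_add, ev_add, hx, hz]
  | smul c x _ hx => rw [ev_smul, ev_smul, hx]

theorem multi_lin {V : Finset ℕ} {p : FreeLieAlgebra K ℕ}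
    (hp : p ∈ Submodule.span K {w | IsWord K V.val w}) (v : ℕ) (hv : v ∈ V) (a : ℕ → L) :
    ∃ f : L →ₗ[K] L, ∀ y, ev (Function.update a v y) p = f y := by
  induction hp using Submodule.span_induction with
  | mem w hw => exact word_lin hw v (Multiset.count_eq_one_of_mem V.nodup hv) a
  | zero => exact ⟨0, fun y => by simp⟩
  | add x z _ _ hx hz =>
    obtain ⟨f, hf⟩ := hx
    obtain ⟨g, hg⟩ := hz
    exact ⟨f + g, fun y => by rw [ev_add, hf, hg]; rfl⟩
  | smul c x _ hx =>
    obtain ⟨f, hf⟩ := hx
    exact ⟨c • f, fun y => by rw [ev_smul, hf]; rfl⟩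

/-- letters outside `V` are irrelevant -/
theorem multi_congr {V : Finset ℕ} {p : FreeLieAlgebra K ℕ}
    (hp : p ∈ Submodule.span K {w | IsWord K V.val w}) (a b : ℕ → L) (h : ∀ i ∈ V, a i = b i) :
    ev a p = ev b p := by
  have hword : ∀ (s : Multiset ℕ) (w : FreeLieAlgebra K ℕ), IsWord K s w →
      (∀ i ∈ s, a i = b i) → ev a w = ev b w := by
    intro s w hw
    induction hw with
    | letter i => intro h; rw [ev_of, ev_of, h i (by simp)]
    | bracket h1 h2 ih1 ih2 =>
      intro h
      rw [ev_lie, ev_lie, ih1 (fun i hi => h i (by simp [hi])), ih2 (fun i hi => h i (by simp [hi]))]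
  induction hp using Submodule.span_induction with
  | mem w hw => exact hword _ w hw h
  | zero => simp
  | add x z _ _ hx hz => rw [ev_add, ev_add, hx, hz]
  | smul c x _ hx => rw [ev_smul, ev_smul, hx]

end

theorem t_MUA : S_MUA := by
  intro K _ _ _ V p hp E H hE h
  -- the letters of `W` are arbitrary pure, the other ones are in `E`
  have key : ∀ W : Finset ℕ, W ⊆ V → ∀ a : ℕ → ℍ[K], (∀ i ∈ W, (a i).re = 0) →
      (∀ i, i ∉ W → a i ∈ E) → ev a p ∈ H := by
    intro W
    induction W using Finset.induction_on with
    | empty => intro _ a _ h2; exact h a (fun i => h2 i (by simp))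
    | insert v W hvW ih =>
      intro hWV a h1 h2
      obtain ⟨f, hf⟩ := multi_lin hp v (hWV (Finset.mem_insert_self _ _)) a
      have h3 : E ⊆ (H.comap f : Submodule K ℍ[K]) := by
        intro y hy
        show f y ∈ H
        rw [← hf]
        apply ih (fun i hi => hWV (Finset.mem_insert_of_mem hi))
        · intro i hi
          rw [Function.update_of_ne (by rintro rfl; exact hvW hi)]
          exact h1 i (Finset.mem_insert_of_mem hi)
        · intro i hi
          by_cases hiv : i = v
          · subst hiv
            simpa using hy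
          · rw [Function.update_of_ne hiv]
            exact h2 i (by simp [hiv, hi])
      have h4 := Submodule.span_le.2 h3 (hE (a v) (h1 v (Finset.mem_insert_self _ _)))
      have h5 : f (a v) ∈ H := h4
      rw [← hf, Function.update_eq_self] at h5
      exact h5
  intro a ha
  by_cases hne : E.Nonempty
  · obtain ⟨e0, he0⟩ := hne
    have h6 := key V (Finset.Subset.refl _) (fun i => if i ∈ V then a i else e0)
      (fun i hi => by simp only [if_pos hi]; exact ha i)
      (fun i hi => by simp only [if_neg hi]; exact he0)
    rwa [multi_congr hp _ a (fun i hi => by simp only [if_pos hi])] at h6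
  · rw [Set.not_nonempty_iff_eq_empty] at hne
    have h7 := hE ⟨0, 1, 0, 0⟩ rfl
    rw [hne, Submodule.span_empty, Submodule.mem_bot] at h7
    have h8 := congrArg QuaternionAlgebra.imI h7
    simp at h8

end Pool.Agent.H39.LP
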