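import Pool.Agent.H68.LP.Stm

set_option autoImplicit false

namespace Pool.Agent.H39.LP

open Quaternion Pool.Agent.H68.LP

attribute [local instance 100] LieRing.ofAssociativeRing

variable {K : Type} [Field K] [CharZero K]

theorem skew' {A : Matrix (Fin 4) (Fin 4) K} (hA : A ∈ LieAlgebra.Orthogonal.so (Fin 4) K)
    (i j : Fin 4) : A i j = - A j i := by
  have h := (LieAlgebra.Orthogonal.mem_so (n := Fin 4) (R := K) A).1 hA
  have h2 := congrFun (congrFun h j) i
  simpa using h2

theorem diag' {A : Matrix (Fin 4) (Fin 4) K} (hA : A ∈ LieAlgebra.Orthogonal.so (Fin 4) K)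
    (i : Fin 4) : A i i = 0 := by
  have h := skew' hA i i
  exact self_eq_neg.1 h

theorem coords {A : Matrix (Fin 4) (Fin 4) K} (hA : A ∈ LieAlgebra.Orthogonal.so (Fin 4) K) :
    ∃ a b c d e f : K, A = !![0, -a, -b, -c; a, 0, -d, e; b, d, 0, -f; c, -e, f, 0] := by
  refine ⟨A 1 0, A 2 0, A 3 0, A 2 1, A 1 3, A 3 2, ?_⟩
  ext i j
  fin_cases i <;> fin_cases j
  · simpa using diag' hA 0
  · simpa using skew' hA 0 1
  · simpa using skew' hA 0 2
  · simpa using skew' hA 0 3
  · simp
  · simpa using diag' hA 1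
  · simpa using skew' hA 1 2
  · simp
  · simp
  · simp
  · simpa using diag' hA 2
  · simpa using skew' hA 2 3
  · simp
  · simpa using skew' hA 3 1
  · simp
  · simpa using diag' hA 3

theorem sd_lie {A B : Matrix (Fin 4) (Fin 4) K} (hA : A ∈ LieAlgebra.Orthogonal.so (Fin 4) K)
    (hB : B ∈ LieAlgebra.Orthogonal.so (Fin 4) K) :
    sd (A * B - B * A) = sd A * sd B - sd B * sd A := by
  obtain ⟨a, b, c, d, e, f, rfl⟩ := coords hA
  obtain ⟨a', b', c', d', e', f', rfl⟩ := coords hB
  ext
  · simp [sd]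
    ring
  · simp [sd, Matrix.mul_apply, Fin.sum_univ_four]
    ring
  · simp [sd, Matrix.mul_apply, Fin.sum_univ_four]
    ring
  · simp [sd, Matrix.mul_apply, Fin.sum_univ_four]
    ring

theorem asd_lie {A B : Matrix (Fin 4) (Fin 4) K} (hA : A ∈ LieAlgebra.Orthogonal.so (Fin 4) K)
    (hB : B ∈ LieAlgebra.Orthogonal.so (Fin 4) K) :
    asd (A * B - B * A) = asd A * asd B - asd B * asd A := by
  obtain ⟨a, b, c, d, e, f, rfl⟩ := coords hA
  obtain ⟨a', b', c', d', e', f', rfl⟩ := coords hB
  ext
  · simp [asd]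
    ring
  · simp [asd, Matrix.mul_apply, Fin.sum_univ_four]
    ring
  · simp [asd, Matrix.mul_apply, Fin.sum_univ_four]
    ring
  · simp [asd, Matrix.mul_apply, Fin.sum_univ_four]
    ring

/-- the first component as a Lie homomorphism -/
def sdH : LieAlgebra.Orthogonal.so (Fin 4) K →ₗ⁅K⁆ ℍ[K] where
  toFun A := sd A.1
  map_add' A B := by
    ext <;> simp [sd] <;> ring
  map_smul' c A := by
    ext <;> simp [sd] <;> ring
  map_lie' {A B} := by
    have h := sd_lie A.2 B.2
    rw [LieRing.of_associative_ring_bracket]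
    exact h

/-- the second component as a Lie homomorphism -/
def asdH : LieAlgebra.Orthogonal.so (Fin 4) K →ₗ⁅K⁆ ℍ[K] where
  toFun A := asd A.1
  map_add' A B := by
    ext <;> simp [asd] <;> ring
  map_smul' c A := by
    ext <;> simp [asd] <;> ring
  map_lie' {A B} := by
    have h := asd_lie A.2 B.2
    rw [LieRing.of_associative_ring_bracket]
    exact h

theorem t_SO4 : S_SO4 := by
  intro K _ _
  refine ⟨fun a p => ⟨ev_map (sdH (K := K)) a p, ev_map (asdH (K := K)) a p⟩, ?_, ?_⟩
  · intro q r hq hr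
    refine ⟨⟨!![0, -(q.imI - r.imI), -(q.imJ - r.imJ), -(q.imK - r.imK);
      q.imI - r.imI, 0, -(q.imK + r.imK), q.imJ + r.imJ;
      q.imJ - r.imJ, q.imK + r.imK, 0, -(q.imI + r.imI);
      q.imK - r.imK, -(q.imJ + r.imJ), q.imI + r.imI, 0], ?_⟩, ?_, ?_⟩
    · rw [LieAlgebra.Orthogonal.mem_so]
      ext i j
      fin_cases i <;> fin_cases j <;> simp
    · ext
      · simp [sd, hq]
      · simp [sd]
      · simp [sd]
      · simp [sd]
    · ext
      · simp [asd, hr]
      · simp [asd]
      · simp [asd]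
      · simp [asd]
  · intro A B h1 h2
    obtain ⟨A, hA⟩ := A
    obtain ⟨B, hB⟩ := B
    obtain ⟨a, b, c, d, e, f, rfl⟩ := coords hA
    obtain ⟨a', b', c', d', e', f', rfl⟩ := coords hB
    have i1 := congrArg QuaternionAlgebra.imI h1
    have j1 := congrArg QuaternionAlgebra.imJ h1
    have k1 := congrArg QuaternionAlgebra.imK h1
    have i2 := congrArg QuaternionAlgebra.imI h2
    have j2 := congrArg QuaternionAlgebra.imJ h2
    have k2 := congrArg QuaternionAlgebra.imK h2
    simp [sd] at i1 j1 k1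
    simp [asd] at i2 j2 k2
    have ea : a = a' := by linear_combination (i1 - i2) / 2
    have ef : f = f' := by linear_combination (i1 + i2) / 2
    have eb : b = b' := by linear_combination (j1 - j2) / 2
    have ee : e = e' := by linear_combination (j1 + j2) / 2
    have ec : c = c' := by linear_combination (k1 - k2) / 2
    have ed : d = d' := by linear_combination (k1 + k2) / 2
    subst ea ef eb ee ec ed
    rfl

end Pool.Agent.H39.LP
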